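import Pool.Agent.Helper30.EL.St

/-!
# Project EL, module ONE: one of the numbers `c` has no bias
-/

set_option autoImplicit false

noncomputable section

namespace Pool.Agent.Helper86.EL

open Finset Filter Topology ArithmeticFunction
open Pool.Agent.Helper93.KS (bq)
open Pool.Agent.Helper30.EL

private lemma jac_le_one (x : ℤ) (p : ℕ) : |(jacobiSym x p : ℝ)| ≤ 1 := by
  rcases jacobiSym.trichotomy x p with h | h | h <;> rw [h] <;> norm_num

/-- the number of prime factors -/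
private lemma card_pf (w : ℕ) (hw : 1 ≤ w) : (w.primeFactors.card : ℝ) ≤ 2 * Real.log w := by
  have h1 : 2 ^ w.primeFactors.card ≤ w := by
    refine le_trans ?_ (Nat.le_of_dvd hw (Nat.prod_primeFactors_dvd w))
    exact Finset.pow_card_le_prod _ _ _ fun p hp => (Nat.prime_of_mem_primeFactors hp).two_le
  have h2 : ((2 : ℝ)) ^ w.primeFactors.card ≤ w := by exact_mod_cast h1
  have h3 := Real.log_le_log (by positivity) h2
  rw [Real.log_pow] at h3
  have h4 : (1 : ℝ) / 2 ≤ Real.log 2 := by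
    have := Real.log_two_gt_d9
    linarith
  have h5 : (0 : ℝ) ≤ (w.primeFactors.card : ℝ) := Nat.cast_nonneg _
  nlinarith

/-- the sums for `d w ^ 2` and for `d` differ by the terms with `p ∣ w` -/
private lemma cs_diff (a u i d w : ℕ) (hw : 1 ≤ w) (ha : 1 ≤ a) :
    |cs a u i (d * w ^ 2) - cs a u i d| ≤
      4 * Real.log w / (a : ℝ) ^ ((i : ℝ) * (1 / (100 * u))) := by
  have hapos : (0 : ℝ) < (a : ℝ) := by exact_mod_cast ha
  have hQ : 0 < (a : ℝ) ^ ((i : ℝ) * (1 / (100 * u))) := Real.rpow_pos_of_pos hapos _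
  set Q := (a : ℝ) ^ ((i : ℝ) * (1 / (100 * u))) with hQdef
  unfold cs
  rw [← Finset.sum_sub_distrib]
  have h1 : ∀ p ∈ bq a (1 / (100 * u)) i,
      |(jacobiSym (-((d * w ^ 2 : ℕ) : ℤ)) p : ℝ) / p - (jacobiSym (-(d : ℤ)) p : ℝ) / p| ≤
        if p ∈ w.primeFactors then 2 / Q else 0 := by
    intro p hp
    simp only [bq, Finset.mem_filter] at hp
    obtain ⟨-, hpp, hpQ⟩ := hp
    have hp0 : (0 : ℝ) < p := by exact_mod_cast hpp.pos
    have hmul : jacobiSym (-((d * w ^ 2 : ℕ) : ℤ)) p =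
        jacobiSym (-(d : ℤ)) p * jacobiSym (w : ℤ) p ^ 2 := by
      have e : (-((d * w ^ 2 : ℕ) : ℤ)) = -(d : ℤ) * (w : ℤ) ^ 2 := by
        push_cast
        ring
      rw [e, jacobiSym.mul_left, jacobiSym.pow_left]
    split_ifs with h
    · have b1 := jac_le_one (-((d * w ^ 2 : ℕ) : ℤ)) p
      have b2 := jac_le_one (-(d : ℤ)) p
      rw [← sub_div, abs_div, abs_of_pos hp0]
      have b3 : |(jacobiSym (-((d * w ^ 2 : ℕ) : ℤ)) p : ℝ) - (jacobiSym (-(d : ℤ)) p : ℝ)| ≤ 2 := by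
        have := abs_sub (jacobiSym (-((d * w ^ 2 : ℕ) : ℤ)) p : ℝ) (jacobiSym (-(d : ℤ)) p : ℝ)
        linarith
      exact div_le_div₀ (by norm_num) b3 hQ hpQ
    · have hcop : Int.gcd (w : ℤ) (p : ℤ) = 1 := by
        have h2 : ¬ p ∣ w := fun hd => h (Nat.mem_primeFactors.2 ⟨hpp, hd, by omega⟩)
        rw [Int.gcd_natCast_natCast]
        exact ((Nat.Prime.coprime_iff_not_dvd hpp).2 h2).symm
      have hsq : jacobiSym (w : ℤ) p ^ 2 = 1 := jacobiSym.sq_one hcop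
      rw [hmul, hsq, mul_one, sub_self, abs_zero]
  refine (Finset.abs_sum_le_sum_abs _ _).trans ((Finset.sum_le_sum h1).trans ?_)
  rw [← Finset.sum_filter, Finset.sum_const, nsmul_eq_mul]
  have h2 : (((bq a (1 / (100 * u)) i).filter (fun p => p ∈ w.primeFactors)).card : ℝ) ≤
      2 * Real.log w := by
    refine le_trans ?_ (card_pf w hw)
    exact_mod_cast Finset.card_le_card fun p hp => (Finset.mem_filter.1 hp).2
  calc (((bq a (1 / (100 * u)) i).filter (fun p => p ∈ w.primeFactors)).card : ℝ) * (2 / Q)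
      ≤ (2 * Real.log w) * (2 / Q) := mul_le_mul_of_nonneg_right h2 (by positivity)
    _ = 4 * Real.log w / Q := by ring

/-- module ONE -/
theorem hONE (hD : StDIS) (hS : StSWB) (hB : StBOX) : StONE := by
  intro C₁ u j0 J η hu hj0 hη
  have hu0 : (0 : ℝ) < (u : ℝ) := by exact_mod_cast hu
  -- BOX
  have hB' : ∀ i : ℕ, ∃ K : ℕ, i ∈ Ico j0 J → ∀ᶠ a : ℕ in atTop, ∀ (n : ℕ) (E : Finset ℕ),
      a ^ 2 ≤ n → n < (a + 1) ^ 2 →
      (∀ c ∈ E, Nat.Coprime c (2 * n) ∧ 1 ≤ c ∧ (c : ℝ) ≤ Real.log a ^ C₁) →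
      (∀ c ∈ E, ∀ c' ∈ E, c ≠ c' → ¬ IsSquare (dd n c * dd n c')) →
      (∀ c ∈ E, η ≤ |cs a u i (dd n c)|) → E.card ≤ K := by
    intro i
    by_cases hi : 1 ≤ i
    · obtain ⟨K, a₀, h⟩ := hB C₁ u i η hu hi hη
      exact ⟨K, fun _ => eventually_atTop.2 ⟨a₀, fun a ha n E => h a n E ha⟩⟩
    · exact ⟨0, fun h => absurd (hj0.trans (Finset.mem_Ico.1 h).1) hi⟩
  choose K hK using hB'
  have hK' := (Filter.eventually_all_finset (Ico j0 J)).2 hK
  -- SWB
  have hS' := (Filter.eventually_all_finset (l := (atTop : Filter ℕ)) (Ico j0 J)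
    (p := fun i a => ∀ d : ℕ, 1 ≤ d → (d : ℝ) ≤ Real.log a ^ (3 * C₁ + 1) →
      |cs a u i d| ≤ η / 2)).2 (fun i hi => by
    obtain ⟨a₀, h⟩ := hS (3 * C₁ + 1) u i (η / 2) hu (hj0.trans (Finset.mem_Ico.1 hi).1)
      (by positivity)
    exact eventually_atTop.2 ⟨a₀, fun a ha d => h a d ha⟩)
  -- elementary conditions
  have hcast : Tendsto (fun a : ℕ => (a : ℝ)) atTop atTop := tendsto_natCast_atTop_atTop
  have e1 : ∀ᶠ a : ℕ in atTop, 6 ≤ a := eventually_ge_atTop 6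
  have e2 : ∀ᶠ a : ℕ in atTop, Real.log a ^ C₁ ≤ a := by
    have h := (Real.isLittleO_pow_log_id_atTop (n := C₁)).bound (show (0 : ℝ) < 1 by norm_num)
    filter_upwards [hcast.eventually h, e1] with a ha ha6
    have h1 : (0 : ℝ) ≤ (a : ℝ) := Nat.cast_nonneg _
    simp only [id, one_mul, Real.norm_eq_abs, abs_of_nonneg h1] at ha
    exact (le_abs_self _).trans ha
  have e3 : ∀ᶠ a : ℕ in atTop, 3 ≤ Real.log a :=
    (Real.tendsto_log_atTop.comp hcast).eventually_ge_atTop 3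
  have e4 : ∀ᶠ a : ℕ in atTop, 40 * Real.log a ≤ η * (a : ℝ) ^ ((1 : ℝ) / (100 * u)) := by
    have hω : (0 : ℝ) < 1 / (100 * u) := by positivity
    have h := (isLittleO_log_rpow_atTop hω).bound (show (0 : ℝ) < η / 40 by positivity)
    filter_upwards [hcast.eventually h, e1] with a ha ha6
    have h1 : (0 : ℝ) ≤ (a : ℝ) := Nat.cast_nonneg _
    have h2 : 0 ≤ (a : ℝ) ^ ((1 : ℝ) / (100 * u)) := Real.rpow_nonneg h1 _
    simp only [Real.norm_eq_abs, abs_of_nonneg h2] at ha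
    have h3 := (le_abs_self _).trans ha
    linarith
  obtain ⟨a₀, ha₀⟩ := eventually_atTop.1
    (hK'.and (hS'.and (e1.and (e2.and (e3.and e4)))))
  refine ⟨∑ i ∈ Ico j0 J, K i, a₀, ?_⟩
  intro a n E haa hn1 hn2 hcard hE
  obtain ⟨fK, fS, f1, f2, f3, f4⟩ := ha₀ a haa
  have ha6 : (6 : ℝ) ≤ (a : ℝ) := by exact_mod_cast f1
  have hapos : (0 : ℝ) < (a : ℝ) := by linarith
  have hn0 : 1 ≤ n := le_trans (by nlinarith) hn1
  by_cases hsq : ∃ c ∈ E, ∃ c' ∈ E, c ≠ c' ∧ IsSquare (dd n c * dd n c')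
  · obtain ⟨c, hc, c', hc', hne, hsq⟩ := hsq
    refine ⟨c, hc, fun i hi => ?_⟩
    obtain ⟨g1, g2, g3⟩ := hE c hc
    obtain ⟨g1', g2', g3'⟩ := hE c' hc'
    obtain ⟨d, w, hdw, hd1, hdL⟩ := hD n c c' ⌊Real.log a ^ C₁⌋₊ hn0 g1 g1' hne g2 g2'
      (Nat.le_floor g3) (Nat.le_floor g3') hsq
    have hlog0 : (0 : ℝ) ≤ Real.log a ^ C₁ := by positivity
    have hdr : (d : ℝ) ≤ Real.log a ^ (3 * C₁ + 1) := by
      have h1 : (d : ℝ) ≤ 3 * ((⌊Real.log a ^ C₁⌋₊ : ℕ) : ℝ) ^ 3 := by exact_mod_cast hdL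
      have h2 : ((⌊Real.log a ^ C₁⌋₊ : ℕ) : ℝ) ≤ Real.log a ^ C₁ := Nat.floor_le hlog0
      have h3 : ((⌊Real.log a ^ C₁⌋₊ : ℕ) : ℝ) ^ 3 ≤ (Real.log a ^ C₁) ^ 3 :=
        pow_le_pow_left₀ (Nat.cast_nonneg _) h2 3
      calc (d : ℝ) ≤ 3 * ((⌊Real.log a ^ C₁⌋₊ : ℕ) : ℝ) ^ 3 := h1
        _ ≤ 3 * (Real.log a ^ C₁) ^ 3 := by linarith
        _ ≤ Real.log a * (Real.log a ^ C₁) ^ 3 :=
            mul_le_mul_of_nonneg_right f3 (by positivity)
        _ = Real.log a ^ (3 * C₁ + 1) := by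
            rw [← pow_mul, pow_succ, mul_comm C₁ 3, mul_comm]
    have hd0 : |cs a u i d| ≤ η / 2 := fS i hi d hd1 hdr
    -- the difference
    have hDpos : 1 ≤ dd n c := by
      unfold dd
      exact Nat.succ_le_of_lt (Nat.mul_pos g2 (by omega))
    have hw1 : 1 ≤ w := by
      rcases Nat.eq_zero_or_pos w with h | h
      · rw [h] at hdw
        simp at hdw
        omega
      · exact h
    have hwD : w ≤ dd n c := by
      rw [hdw]
      calc w ≤ w ^ 2 := Nat.le_self_pow (by norm_num) w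
        _ ≤ d * w ^ 2 := Nat.le_mul_of_pos_left _ hd1
    have hDle : (dd n c : ℝ) ≤ (a : ℝ) ^ 5 := by
      have h1 : (c : ℝ) ≤ a := g3.trans f2
      have h2 : (n : ℝ) ≤ ((a : ℝ) + 1) ^ 2 := by
        have : (n : ℝ) ≤ (((a + 1) ^ 2 : ℕ) : ℝ) := by exact_mod_cast hn2.le
        push_cast at this
        exact this
      have h3 : (dd n c : ℝ) = c * (3 * c + 8 * n) := by
        unfold dd
        push_cast
        ring
      rw [h3]
      have h4 : (0 : ℝ) ≤ (c : ℝ) := Nat.cast_nonneg _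
      have h5 : (3 * (c : ℝ) + 8 * n) ≤ (a : ℝ) ^ 4 := by
        have h6 : 3 * (c : ℝ) + 8 * n ≤ 3 * a + 8 * ((a : ℝ) + 1) ^ 2 := by linarith
        have h7 : 3 * (a : ℝ) + 8 * ((a : ℝ) + 1) ^ 2 ≤ 16 * (a : ℝ) ^ 2 := by nlinarith
        have h8 : 16 * (a : ℝ) ^ 2 ≤ (a : ℝ) ^ 4 := by nlinarith
        linarith
      calc (c : ℝ) * (3 * c + 8 * n) ≤ a * (a : ℝ) ^ 4 :=
            mul_le_mul h1 h5 (by positivity) (by positivity)
        _ = (a : ℝ) ^ 5 := by ring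
    have hlogw : Real.log w ≤ 5 * Real.log a := by
      have h1 : (w : ℝ) ≤ (a : ℝ) ^ 5 := le_trans (by exact_mod_cast hwD) hDle
      have h2 := Real.log_le_log (by exact_mod_cast hw1) h1
      rw [Real.log_pow] at h2
      exact_mod_cast h2
    have hdiff := cs_diff a u i d w hw1 (by omega)
    rw [← hdw] at hdiff
    have hi1 : (1 : ℝ) ≤ (i : ℝ) := by exact_mod_cast hj0.trans (Finset.mem_Ico.1 hi).1
    have hQ : (a : ℝ) ^ ((1 : ℝ) / (100 * u)) ≤ (a : ℝ) ^ ((i : ℝ) * (1 / (100 * u))) := by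
      refine Real.rpow_le_rpow_of_exponent_le (by linarith) ?_
      have : (0 : ℝ) < 1 / (100 * u) := by positivity
      nlinarith
    have hQ0 : 0 < (a : ℝ) ^ ((i : ℝ) * (1 / (100 * u))) := Real.rpow_pos_of_pos hapos _
    have hdiff2 : 4 * Real.log w / (a : ℝ) ^ ((i : ℝ) * (1 / (100 * u))) ≤ η / 2 := by
      rw [div_le_iff₀ hQ0]
      have h1 : η * (a : ℝ) ^ ((1 : ℝ) / (100 * u)) ≤
          η * (a : ℝ) ^ ((i : ℝ) * (1 / (100 * u))) := mul_le_mul_of_nonneg_left hQ hη.le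
      linarith
    have h9 : |cs a u i (dd n c)| ≤ |cs a u i (dd n c) - cs a u i d| + |cs a u i d| := by
      have := abs_add_le (cs a u i (dd n c) - cs a u i d) (cs a u i d)
      rwa [sub_add_cancel] at this
    linarith
  · push Not at hsq
    by_contra hcon
    push Not at hcon
    have hsub : E ⊆ (Ico j0 J).biUnion (fun i => E.filter (fun c => η ≤ |cs a u i (dd n c)|)) := by
      intro c hc
      obtain ⟨i, hi, hlt⟩ := hcon c hc
      exact Finset.mem_biUnion.2 ⟨i, hi, Finset.mem_filter.2 ⟨hc, hlt.le⟩⟩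
    have h1 := (Finset.card_le_card hsub).trans Finset.card_biUnion_le
    have h2 : ∑ i ∈ Ico j0 J, (E.filter (fun c => η ≤ |cs a u i (dd n c)|)).card ≤
        ∑ i ∈ Ico j0 J, K i := by
      refine Finset.sum_le_sum fun i hi => ?_
      refine fK i hi n _ hn1 hn2 (fun c hc => hE c (Finset.mem_filter.1 hc).1) ?_
        (fun c hc => (Finset.mem_filter.1 hc).2)
      intro c hc c' hc' hne
      exact hsq c (Finset.mem_filter.1 hc).1 c' (Finset.mem_filter.1 hc').1 hne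
    omega

end Pool.Agent.Helper86.EL
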